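import Pool.Agent.Helper48.FB.Defs
import Pool.Agent.Helper48.WR.FinCount

/-!
# Project FM: definitions

Bases of order two whose dyadic block maxima of the number of representations are small on
average.
-/

set_option autoImplicit false

namespace Pool.Agent.Helper53.FM

open Finset
open Pool.Agent.Helper53.WR
open Pool.Agent.Helper48.FB (win crossF Cs WinLe Fs Dk LR zR dens)

/-- Every `n` of the block `j` is a sum of two elements that are at least `n / c`. -/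
def BCov (A : Set ℕ) (c j : ℕ) : Prop :=
  ∀ n : ℕ, 2 ^ j ≤ n → n < 2 ^ (j + 1) → ∃ x ∈ A, ∃ y ∈ A, x + y = n ∧ n ≤ c * x ∧ n ≤ c * y

/-- The largest number of representations on a dyadic block. -/
noncomputable def blockMax (A : Set ℕ) (j : ℕ) : ℕ :=
  (Finset.Ico (2 ^ j) (2 ^ (j + 1))).sup (fun n => rep A n)

/-- A finite basis `T` for `[0, 2 ^ J)` with block profile `g` and thin subsets `T' i`; `B i` is
the set of the exceptional dyadic blocks of `T' i`. -/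
structure MTop (J F w c : ℕ) (f g : ℕ → ℕ) (T : Finset ℕ) (T' B : ℕ → Finset ℕ) : Prop where
  sub : ∀ i, T' i ⊆ T
  lt : ∀ x ∈ T, x < 2 ^ J
  zo : 0 ∈ T ∧ 1 ∈ T
  cov : ∀ n, 2 ≤ n → n < 2 ^ J → ∃ x ∈ T, ∃ y ∈ T, x + y = n ∧ n ≤ c * x ∧ n ≤ c * y
  rep : ∀ n, repF T n ≤ F
  rep' : ∀ i n, repF (T' i) n ≤ f i
  wn : WinLe T (2 ^ w)
  prof : ∀ j n, 2 ^ j ≤ n → n < 2 ^ (j + 1) → repF T n ≤ g j
  good : ∀ i j, 1 ≤ j → j < J → j ∉ B i → BCov (T' i : Set ℕ) c j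

/-- Admissible parameters. -/
structure MTow (a u e κ w c : ℕ → ℕ) : Prop where
  tow : Tow a u e a κ (Fs u)
  u42 : ∀ k, 2 ^ 42 * u k ≤ a k
  cr : ∀ k, 2 ^ 20 * Dk κ k ≤ e k
  hw : ∀ k, w k + Nat.log 2 (a k) + 60 ≤ 20 * e k
  ww : ∀ k, w k ≤ w (k + 1)
  wF : ∀ k, Fs u k ≤ 2 ^ (2 * w k)
  cc : ∀ k, c k ≤ c (k + 1)
  c2 : ∀ k, 2 ≤ c k

/-- The threshold at distance `d`. -/
def tD (a e d : ℕ) : ℕ := 44 * a / (e + d) + 1

/-- The window exponent of world `k`. -/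
def wA (a w : ℕ → ℕ) (k : ℕ) : ℕ := w k + Nat.log 2 (a k) + 40

/-- The distance of the block of `n` from the start of world `k`. -/
def dW (a u e : ℕ → ℕ) (k n : ℕ) : ℕ := Nat.log 2 n - (4 * a k + thT u e k)

/-- The distance of the block of `n` from the end of the gap below world `k`. -/
def dR (a u e : ℕ → ℕ) (k n : ℕ) : ℕ := Nat.log 2 n - (4 * a k + thT u e k + 128 * e k)

/-- The conclusions for one world `A` (with thin parts `A' i`), older elements `O`. -/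
structure MW (a u e κ w c : ℕ → ℕ) (f g : ℕ → ℕ) (q : ℕ → ℕ) (B : ℕ → Finset ℕ) (k : ℕ)
    (O A : Finset ℕ) (A' : ℕ → Finset ℕ) : Prop where
  sub : ∀ i, A' i ⊆ A
  rng : ∀ b ∈ A, 2 ^ (4 * a k + thT u e k) ≤ b ∧ b < 2 ^ (4 * a (k + 1) + 8 * u (k + 1))
  self : ∀ n, repF A n ≤ 4096 ^ 2 * 2592 * Fs u k
  self' : ∀ i n, repF (A' i) n ≤ 4096 ^ 2 * 2592 * f i
  cov : ∀ n, 2 ^ (4 * a k + thT u e k + 8) ≤ n → n < 2 ^ (4 * a k + laT u k) →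
    ∃ x ∈ A, ∃ y ∈ A, x + y = n ∧ n ≤ 2 * c k * x ∧ n ≤ 2 * c k * y
  prof : ∀ j G, 4 * a k + thT u e k + 8 ≤ j → j + 1 ≤ 4 * a k + laT u k →
    (∀ i, i ≤ 5 → g (j - 4 * a k - i) ≤ G) → ∀ n, 2 ^ j ≤ n → n < 2 ^ (j + 1) →
      repF A n ≤ 4096 ^ 2 * 2592 * G
  good : ∀ i j, 4 * a k + thT u e k + 8 ≤ j → j + 1 ≤ 4 * a k + laT u k →
    (∀ l, l ≤ 5 → j - 4 * a k - l ∉ B i) → BCov (A' i : Set ℕ) (2 * c k) j
  res2 : ∀ i, k < i → a i ≤ 3 * a k → ∀ r,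
    (A.filter (fun b => b % (q i) ^ 2 = r)).card ≤ 4096 * 2 ^ (4 * u i + 4 * e i)
  res4 : ∀ i, k < i → a i ≤ 3 * a k → ∀ r,
    (A.filter (fun b => b % (q i) ^ 4 = r)).card ≤ 4096 * (8 * κ k)
  cross : ∀ n, (crossF A O n).card ≤ 4096 * (tD (a k) (e k) (dW a u e k n) * Dk κ k)
  wn : WinLe A (2 ^ wA a w k)
  mid : ∀ y h, 2 ^ (4 * a k + 4) ≤ h → h ≤ 2 ^ (4 * a k + thT u e k + 13) →
    (win A y h).card ^ 2 * 2 ^ (4 * a k + thT u e k) ≤ 2 ^ 57 * h ^ 2 * Fs u k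

/-- The conclusions for the filler `R` of the gap below world `k`. -/
structure MR (a u e κ : ℕ → ℕ) (q : ℕ → ℕ) (k : ℕ) (O W R : Finset ℕ) : Prop where
  rng : ∀ x ∈ R, 2 ^ zR a u k ≤ x ∧ x < 2 ^ LR a u e k
  cov : ∀ n, 2 ^ (zR a u k + 2) ≤ n → n < 2 ^ LR a u e k →
    ∃ x ∈ R, ∃ y ∈ R, x + y = n ∧ n ≤ 4 * x ∧ n ≤ 4 * y
  self : ∀ n, repF R n ≤ 201 * LR a u e k
  crossO : ∀ n, (crossF R O n).card ≤ 2 ^ 52 * a k
  crossW : ∀ n, (crossF R W n).card ≤ 2 ^ 56 * a k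
  crossL : ∀ n, 2 ^ (4 * a k + thT u e k + 128 * e k) ≤ n →
    (crossF R W n).card ≤ tD (a k) (e k) (dR a u e k n)
  wn : WinLe R (16 * LR a u e k)
  res2 : ∀ i, k < i → a i ≤ 3 * a k → ∀ r,
    (R.filter (fun b => b % (q i) ^ 2 = r)).card ≤ 1 + 2 ^ (4 * u i + 4 * e i)
  res4 : ∀ i, k < i → a i ≤ 3 * a k → ∀ r,
    (R.filter (fun b => b % (q i) ^ 4 = r)).card ≤ 1 + 8 * κ k

/-- The invariant for the older elements `O` at the start of stage `k`. -/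
structure MI (a u e κ w c : ℕ → ℕ) (q : ℕ → ℕ) (k : ℕ) (O : Finset ℕ) : Prop where
  bd : ∀ o ∈ O, o < 2 ^ (4 * a k + 8 * u k)
  zo : 0 ∈ O ∧ 1 ∈ O
  c2 : ∀ i, k ≤ i → ∀ r, (O.filter (fun o => o % (q i) ^ 2 = r)).card
    ≤ (k + 1) * (8192 * 2 ^ (4 * u i + 4 * e i))
  c4 : ∀ i, k ≤ i → ∀ r, (O.filter (fun o => o % (q i) ^ 4 = r)).card ≤ Dk κ k
  rep : ∀ n, repF O n ≤ 4 * Cs * a k
  repl : ∀ n, 2 ^ zR a u k ≤ n → repF O n ≤ Cs * a k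
  cov : ∀ n, 2 ≤ n → n < 2 ^ (4 * a k + 8 * u k - 8) →
    ∃ x ∈ O, ∃ y ∈ O, x + y = n ∧ n ≤ 2 * c k * x ∧ n ≤ 2 * c k * y
  wn : WinLe O ((k + 1) * 2 ^ (wA a w k + 1))

end Pool.Agent.Helper53.FM
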