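import Pool.Agent.Helper53.FM.Defs
import Pool.Agent.Helper53.FM.Rl.D2

/-!
# Project FM: the final theorem
-/

set_option autoImplicit false

namespace Pool.Agent.Helper53.FM

open Finset Filter
open Pool.Agent.Helper53.WR

lemma natlog_le {n : ℕ} (hn : 4 ≤ n) : ((Nat.log 2 n + 1 : ℕ) : ℝ) ≤ 3 * Real.log n := by
  have hn0 : n ≠ 0 := by omega
  have h2 : 2 ≤ Nat.log 2 n := Nat.le_log_of_pow_le (by norm_num) (by omega)
  have h4 : 2 ^ Nat.log 2 n ≤ n := Nat.pow_log_le_self 2 hn0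
  have h5 : ((Nat.log 2 n : ℕ) : ℝ) * Real.log 2 ≤ Real.log n := by
    rw [← Real.log_pow]
    apply Real.log_le_log (by positivity)
    exact_mod_cast h4
  have h6 : (0.69 : ℝ) < Real.log 2 := by linarith [Real.log_two_gt_d9]
  have h8 : (2 : ℝ) ≤ (Nat.log 2 n : ℕ) := by exact_mod_cast h2
  push_cast
  nlinarith

/-- From `l` to `log n`. -/
lemma rep_log {A : Set ℕ} {ρ C : ℝ} (hρ0 : 0 ≤ ρ) (hρ1 : ρ < 1)
    (h : ∀ l n : ℕ, 2 ≤ l → n < 2 ^ l →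
      (rep A n : ℝ) ≤ (l : ℝ) ^ ρ * Real.exp (C * √(Real.log l))) :
    ∀ᶠ n : ℕ in atTop, (rep A n : ℝ) ≤
      (Real.log n) ^ ρ * Real.exp ((2 * |C| + 2) * √(Real.log (Real.log n))) := by
  have hlog : Tendsto (fun n : ℕ => Real.log n) atTop atTop :=
    Real.tendsto_log_atTop.comp tendsto_natCast_atTop_atTop
  have hll : Tendsto (fun n : ℕ => Real.log (Real.log n)) atTop atTop :=
    Real.tendsto_log_atTop.comp hlog
  filter_upwards [eventually_ge_atTop 4, hlog.eventually_ge_atTop 10,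
    hll.eventually_ge_atTop 4] with n hn hln hlln
  have hnpos : (0 : ℝ) < n := by positivity
  have hl3 := natlog_le hn
  set l := Nat.log 2 n + 1 with hl
  have h1 : n < 2 ^ l := Nat.lt_pow_succ_log_self (by norm_num) n
  have h2 : 2 ≤ l := by
    have : 2 ≤ Nat.log 2 n := Nat.le_log_of_pow_le (by norm_num) (by omega)
    omega
  have hlpos : (0 : ℝ) < l := by
    have : 0 < l := by omega
    exact_mod_cast this
  have hL : 0 < Real.log n := by linarith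
  set x := Real.log (Real.log n) with hx
  have hxs : 2 ≤ √x := by
    apply Real.le_sqrt_of_sq_le
    linarith
  have h9 : Real.log l ≤ x + 2 := by
    calc Real.log l ≤ Real.log (3 * Real.log n) := Real.log_le_log hlpos hl3
      _ = Real.log 3 + x := Real.log_mul (by norm_num) hL.ne'
      _ ≤ x + 2 := by
        have : Real.log 3 ≤ 3 - 1 := Real.log_le_sub_one_of_pos (by norm_num)
        linarith
  have h10 : √(Real.log l) ≤ 2 * √x := by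
    rw [show (2 : ℝ) * √x = √(4 * x) by
      rw [Real.sqrt_mul (by norm_num) x, show (4 : ℝ) = 2 ^ 2 by norm_num,
        Real.sqrt_sq (by norm_num)]]
    apply Real.sqrt_le_sqrt
    linarith
  have h11 : (l : ℝ) ^ ρ ≤ 3 * (Real.log n) ^ ρ := by
    calc (l : ℝ) ^ ρ ≤ (3 * Real.log n) ^ ρ := Real.rpow_le_rpow hlpos.le hl3 hρ0
      _ = 3 ^ ρ * (Real.log n) ^ ρ := Real.mul_rpow (by norm_num) hL.le
      _ ≤ 3 * (Real.log n) ^ ρ := by
        have : (3 : ℝ) ^ ρ ≤ 3 ^ (1 : ℝ) := Real.rpow_le_rpow_of_exponent_le (by norm_num) hρ1.le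
        rw [Real.rpow_one] at this
        gcongr
  have hC0 : 0 ≤ |C| := abs_nonneg C
  have h12 : C * √(Real.log l) ≤ |C| * (2 * √x) := by
    calc C * √(Real.log l) ≤ |C| * √(Real.log l) :=
          mul_le_mul_of_nonneg_right (le_abs_self C) (Real.sqrt_nonneg _)
      _ ≤ |C| * (2 * √x) := mul_le_mul_of_nonneg_left h10 hC0
  calc (rep A n : ℝ) ≤ (l : ℝ) ^ ρ * Real.exp (C * √(Real.log l)) := h l n h2 h1
    _ ≤ (3 * (Real.log n) ^ ρ) * Real.exp (|C| * (2 * √x)) := by gcongr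
    _ = (Real.log n) ^ ρ * (3 * Real.exp (|C| * (2 * √x))) := by ring
    _ ≤ (Real.log n) ^ ρ * Real.exp ((2 * |C| + 2) * √x) := by
      gcongr
      have e3 : (3 : ℝ) ≤ Real.exp (2 * √x) := by
        have := Real.add_one_le_exp (2 * √x)
        linarith
      calc 3 * Real.exp (|C| * (2 * √x)) ≤ Real.exp (2 * √x) * Real.exp (|C| * (2 * √x)) := by
            gcongr
        _ = _ := by
            rw [← Real.exp_add]
            congr 1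
            ring

theorem main_of (hinf : ∃ (A : Set ℕ) (C : ℝ), (∀ n, ∃ x ∈ A, ∃ y ∈ A, x + y = n) ∧
    (∀ j : ℕ, (blockMax A j : ℝ) ≤ C * (j + 1)) ∧
    (∀ J : ℕ, 2 ≤ J → ∑ j ∈ range J, (blockMax A j : ℝ) ≤ J * Real.exp (C * √(Real.log J))) ∧
    ∀ ρ : ℝ, 0 ≤ ρ → ρ < 1 → ∃ A' : Set ℕ, A' ⊆ A ∧
      (∀ l n : ℕ, 2 ≤ l → n < 2 ^ l →
        (rep A' n : ℝ) ≤ (l : ℝ) ^ ρ * Real.exp (C * √(Real.log l))) ∧
      ∀ᶠ J : ℕ in atTop,
        (badCount A' J : ℝ) ≤ (J : ℝ) ^ (1 - ρ) * Real.exp (-√(Real.log J))) :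
    ∃ (A : Set ℕ) (C : ℝ), (∀ n, ∃ x ∈ A, ∃ y ∈ A, x + y = n) ∧
    (∀ j : ℕ, (blockMax A j : ℝ) ≤ C * (j + 1)) ∧
    (∀ J : ℕ, 2 ≤ J → ∑ j ∈ range J, (blockMax A j : ℝ) ≤ J * Real.exp (C * √(Real.log J))) ∧
    ∀ ρ : ℝ, 0 ≤ ρ → ρ < 1 → ∃ A' : Set ℕ, A' ⊆ A ∧
      (∀ᶠ n : ℕ in atTop, (rep A' n : ℝ) ≤
        (Real.log n) ^ ρ * Real.exp (C * √(Real.log (Real.log n)))) ∧
      ∀ᶠ J : ℕ in atTop,
        (badCount A' J : ℝ) ≤ (J : ℝ) ^ (1 - ρ) * Real.exp (-√(Real.log J)) := by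
  obtain ⟨A, C, h1, h2, h3, h4⟩ := hinf
  have hC0 : 0 ≤ |C| := abs_nonneg C
  have hC : C ≤ 2 * |C| + 2 := by linarith [le_abs_self C]
  refine ⟨A, 2 * |C| + 2, h1, ?_, ?_, ?_⟩
  · intro j
    refine (h2 j).trans ?_
    have : (0 : ℝ) ≤ (j : ℝ) + 1 := by positivity
    gcongr
  · intro J hJ
    refine (h3 J hJ).trans ?_
    gcongr
  · intro ρ hρ0 hρ1
    obtain ⟨A', g1, g2, g3⟩ := h4 ρ hρ0 hρ1
    exact ⟨A', g1, rep_log hρ0 hρ1 g2, g3⟩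

/-- The main theorem. -/
theorem main_thm : ∃ (A : Set ℕ) (C : ℝ), (∀ n, ∃ x ∈ A, ∃ y ∈ A, x + y = n) ∧
    (∀ j : ℕ, (blockMax A j : ℝ) ≤ C * (j + 1)) ∧
    (∀ J : ℕ, 2 ≤ J → ∑ j ∈ range J, (blockMax A j : ℝ) ≤ J * Real.exp (C * √(Real.log J))) ∧
    ∀ ρ : ℝ, 0 ≤ ρ → ρ < 1 → ∃ A' : Set ℕ, A' ⊆ A ∧
      (∀ᶠ n : ℕ in atTop, (rep A' n : ℝ) ≤
        (Real.log n) ^ ρ * Real.exp (C * √(Real.log (Real.log n)))) ∧
      ∀ᶠ J : ℕ in atTop,
        (badCount A' J : ℝ) ≤ (J : ℝ) ^ (1 - ρ) * Real.exp (-√(Real.log J)) :=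
  main_of Pool.Agent.Helper63.FM.infinite_thm3

end Pool.Agent.Helper53.FM
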